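import Pool.Agent.Q183.AM.Hall2

/-!
# Hall's inequality for all pairs of linear recurrences

Let `x(t)`, `y(t)` be sequences of integers with linear recurrences with constant coefficients. We show
Hall's inequality `|x| ^ (1 / 2) ≤ C |y² - x³|`, without an `ε`, for almost all `t` with
`y(t)² ≠ x(t)³`, and for all these `t` with `C exp (ε t)` instead of `C`, for every `ε > 0`. No
condition is imposed on the recurrences (no dominant or simple roots), nor coprimality.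

More precisely, let `x(t) = ξ r ^ t ∏ g_j(t) ^ a_j` and `y(t) = ζ q ^ t ∏ g_j(t) ^ b_j` be products of
powers of such sequences. Then `max (|x|³, y²) ≤ C |y² - x³| P`, where `P` is the product of the
different `|g_j|` which occur in `x` or `y`.
-/

set_option autoImplicit false

namespace Pool.Agent.Results.MP_9d7cd1_nt.PairsOfRecurrences

variable {J : Type} [Fintype J]

/-- `x(t) = ξ r ^ t ∏ g_j(t) ^ a_j` -/
def val (g : J → ℕ → ℤ) (ξ r : ℤ) (a : J → ℕ) (t : ℕ) : ℤ := ξ * r ^ t * ∏ j, g j t ^ a j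

/-- the indices which occur in `x` or `y` -/
def occ (a b : J → ℕ) : Finset J := Finset.univ.filter fun j => a j + b j ≠ 0

/-- Hall's inequality with the constant `C` and without an `ε` for the integers `x`, `y`, and its
form for products: `P` is the product of the absolute values of the different bases -/
def Hall (x y : ℤ) (P C : ℝ) : Prop :=
  y ^ 2 ≠ x ^ 3 →
    |(x : ℝ)| ^ (1 / 2 : ℝ) ≤ C * |(y : ℝ) ^ 2 - (x : ℝ) ^ 3| ∧
    (x ≠ 0 → y ≠ 0 →
      max (|(x : ℝ)| ^ 3) (|(y : ℝ)| ^ 2) ≤ C * (|(y : ℝ) ^ 2 - (x : ℝ) ^ 3| * P))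

theorem hall_of {g : J → ℕ → ℤ} {ξ ζ r q : ℤ} {a b : J → ℕ} {C : ℝ} {t : ℕ}
    (h : Pool.Agent.Q183.AM.Hall.Full g ξ ζ r q a b 3 2 C t) :
    Hall (val g ξ r a t) (val g ζ q b t) (∏ j ∈ occ a b, |(g j t : ℝ)|) C := by
  intro hne
  have hne' : Pool.Agent.Q183.AM.Hall.X g ξ r a t ^ 3 ≠ Pool.Agent.Q183.AM.Hall.X g ζ q b t ^ 2 :=
    fun h0 => hne h0.symm
  obtain ⟨h1, h2⟩ := h hne'
  change (max (|(val g ξ r a t : ℝ)| ^ 3) (|(val g ζ q b t : ℝ)| ^ 2)) ^
    (1 - 1 / ((3 : ℕ) : ℝ) - 1 / ((2 : ℕ) : ℝ)) ≤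
    C * |(val g ξ r a t : ℝ) ^ 3 - (val g ζ q b t : ℝ) ^ 2| at h1
  change val g ξ r a t ≠ 0 → val g ζ q b t ≠ 0 →
    max (|(val g ξ r a t : ℝ)| ^ 3) (|(val g ζ q b t : ℝ)| ^ 2) ≤
      C * (|(val g ξ r a t : ℝ) ^ 3 - (val g ζ q b t : ℝ) ^ 2| *
        ∏ j ∈ occ a b, |(g j t : ℝ)|) at h2
  rw [abs_sub_comm] at h1
  refine ⟨le_trans ?_ h1, fun h3 h4 => ?_⟩
  · have e : (1 - 1 / ((3 : ℕ) : ℝ) - 1 / ((2 : ℕ) : ℝ)) = 1 / 6 := by norm_num
    rw [e]
    calc |(val g ξ r a t : ℝ)| ^ (1 / 2 : ℝ) = (|(val g ξ r a t : ℝ)| ^ 3) ^ (1 / 6 : ℝ) := by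
          rw [← Real.rpow_natCast, ← Real.rpow_mul (abs_nonneg _)]
          norm_num
      _ ≤ _ := Real.rpow_le_rpow (by positivity) (le_max_left _ _) (by norm_num)
  · rw [abs_sub_comm ((val g ζ q b t : ℝ) ^ 2)]
    exact h2 h3 h4

/-- **Main theorem.** Let the `g_j` have linear recurrences, `r, q ≠ 0`, and let `x(t)`, `y(t)` be as
above.
(1) For every `η > 0` there is a constant `C` such that Hall's inequality with the constant `C`
holds for all `t` outside a set with at most `η N` elements among any `N` consecutive integers, for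
`N` large and from some point on.
(2) For every `ε > 0` there is a constant `C` such that Hall's inequality holds with
`C exp (ε t)`, for all `t`.
(3) For all `c, ε > 0` there is a constant `C` such that `log |x| < (2 + ε) log |y² - x³| + C` for all
`t` with `|x(t)| ≥ exp (c t)` and `y(t)² ≠ x(t)³`. -/
theorem result (g : J → ℕ → ℤ)
    (hg : ∀ j, ∃ E : LinearRecurrence ℤ, E.IsSolution (g j)) (ξ ζ r q : ℤ) (hr : r ≠ 0)
    (hq : q ≠ 0) (a b : J → ℕ) :
    (∀ η : ℝ, 0 < η → ∃ (C : ℝ) (T z : ℕ), ∀ t₀ N : ℕ, z ≤ t₀ → T ≤ N →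
      (({t | t₀ ≤ t ∧ t < t₀ + N ∧ ¬ Hall (val g ξ r a t) (val g ζ q b t)
        (∏ j ∈ occ a b, |(g j t : ℝ)|) C}.ncard : ℕ) : ℝ) ≤ η * N) ∧
    (∀ ε : ℝ, 0 < ε → ∃ C : ℝ, ∀ t : ℕ, Hall (val g ξ r a t) (val g ζ q b t)
      (∏ j ∈ occ a b, |(g j t : ℝ)|) (C * Real.exp (ε * t))) ∧
    ∀ c ε : ℝ, 0 < c → 0 < ε → ∃ C : ℝ, ∀ t : ℕ, Real.exp (c * t) ≤ |(val g ξ r a t : ℝ)| →
      val g ζ q b t ^ 2 ≠ val g ξ r a t ^ 3 →
      Real.log |(val g ξ r a t : ℝ)| <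
        (2 + ε) * Real.log |(val g ζ q b t : ℝ) ^ 2 - (val g ξ r a t : ℝ) ^ 3| + C := by
  refine ⟨fun η hη => ?_, fun ε hε => ?_, fun c ε hc hε => ?_⟩
  · obtain ⟨C, T, z, h⟩ := Pool.Agent.Q183.AM.Hall.full_aa g hg ξ ζ r q hr hq a b 3 2
      (by norm_num) (by norm_num) η hη
    refine ⟨C, T, z, fun t₀ N ht hN => le_trans ?_ (h t₀ N ht hN)⟩
    have h4 : {t | t₀ ≤ t ∧ t < t₀ + N ∧ ¬ Hall (val g ξ r a t) (val g ζ q b t)
        (∏ j ∈ occ a b, |(g j t : ℝ)|) C} ⊆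
        {s | t₀ ≤ s ∧ s < t₀ + N ∧ ¬ Pool.Agent.Q183.AM.Hall.Full g ξ ζ r q a b 3 2 C s} := by
      rintro t ⟨k1, k2, k3⟩
      exact ⟨k1, k2, fun h => k3 (hall_of h)⟩
    exact_mod_cast Set.ncard_le_ncard h4
      ((Set.finite_Ico t₀ (t₀ + N)).subset fun _ hs => ⟨hs.1, hs.2.1⟩)
  · obtain ⟨C, -, h⟩ := Pool.Agent.Q183.AM.Hall.full_ee g hg ξ ζ r q hr hq a b 3 2
      (by norm_num) (by norm_num) ε hε
    exact ⟨C, fun t => hall_of (h t)⟩
  · set δ : ℝ := c / 2 * (ε / (2 + ε)) with hδ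
    have hδ0 : 0 < δ := by positivity
    obtain ⟨C, hC, h⟩ := Pool.Agent.Q183.AM.Hall.full_ee g hg ξ ζ r q hr hq a b 3 2
      (by norm_num) (by norm_num) δ hδ0
    refine ⟨(2 + ε) * Real.log C + 1, fun t ht hne => ?_⟩
    obtain ⟨h1, -⟩ := hall_of (h t) hne
    have hx0 : (0 : ℝ) < |(val g ξ r a t : ℝ)| := lt_of_lt_of_le (Real.exp_pos _) ht
    have hD : (0 : ℝ) < |(val g ζ q b t : ℝ) ^ 2 - (val g ξ r a t : ℝ) ^ 3| := by
      have h5 : (val g ζ q b t : ℝ) ^ 2 - (val g ξ r a t : ℝ) ^ 3 ≠ 0 :=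
        sub_ne_zero.2 (by exact_mod_cast hne)
      exact abs_pos.2 h5
    set L := Real.log |(val g ξ r a t : ℝ)| with hL
    set D := Real.log |(val g ζ q b t : ℝ) ^ 2 - (val g ξ r a t : ℝ) ^ 3| with hDD
    have h2 : c * t ≤ L := by
      have := Real.log_le_log (Real.exp_pos _) ht
      rwa [Real.log_exp] at this
    have h3 : 1 / 2 * L ≤ Real.log C + δ * t + D := by
      have h6 := Real.log_le_log (Real.rpow_pos_of_pos hx0 _) h1
      rw [Real.log_rpow hx0, Real.log_mul (by positivity) hD.ne', Real.log_mul (by positivity)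
        (Real.exp_pos _).ne', Real.log_exp] at h6
      exact h6
    have h4 : δ * t ≤ ε / (2 * (2 + ε)) * L := by
      have e : δ * t = ε / (2 * (2 + ε)) * (c * t) := by
        rw [hδ]
        field_simp
      rw [e]
      exact mul_le_mul_of_nonneg_left h2 (by positivity)
    have h5 : L ≤ (2 + ε) * (Real.log C + D) := by
      have e : 1 / 2 * L - ε / (2 * (2 + ε)) * L = L / (2 + ε) := by
        field_simp
        ring
      have h6 : L / (2 + ε) ≤ Real.log C + D := by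
        rw [← e]
        linarith
      rw [div_le_iff₀ (by positivity)] at h6
      linarith
    linarith

end Pool.Agent.Results.MP_9d7cd1_nt.PairsOfRecurrences
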