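import Pool.Agent.Q138.PS.WO
import Pool.Agent.Q138.AJ.Re734eda

/-!
# Hall's conjecture for the integral points of Mordell curves which are close to a given point

Let `Y` be a metric space and let `p` be ANY map which associates a point of `Y` to every pair of integers `(x, y)`; `p` is the
same for all the curves `y ^ 2 = x ^ 3 + d`. An example is `p(x, y) = x` in the ring `ℤ_ℓ` of `ℓ`-adic integers with `τ = 1`: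
there the integers `x ≥ 0` which are within `c / x` of `z` are, up to bounded factors, the truncations `z mod ℓ ^ k` of the
`ℓ`-adic expansion of `z`.

(1) Let `ε ≥ 0`, `δ = min (1 / 2) (ε / (4 + 2 ε))` and `τ > 0`. There is a set `Z ⊆ Y` of Hausdorff dimension at most
`(1 / 3 - δ / 6) / τ` such that for every `z ∈ Y` outside `Z`, all `B` and all `c`, for all but finitely many of the integral
points `(x, y)`, `x ≠ 0`, with `dist (p (x, y), z) ≤ c |x| ^ (-τ)` of ALL the curves `y ^ 2 = x ^ 3 + d`, `d ≠ 0`,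
`log |x| < (2 + ε) log |d| + B`. For `ε = 0` this is Hall's original conjecture, even with arbitrary `B`.

(2) The same for the points with `dist (p (x, y), z) ≤ c |y| ^ (-τ)`, off a set of dimension at most `(2 / 9 - δ / 9) / τ`.
-/

set_option autoImplicit false

namespace Pool.Agent.Results.MP_9d7cd1_nt.PointsNearGivenPoints

open Filter Pool.Agent.Q138.PS

/-- the exceptional pairs -/
def Exc (C δ : ℝ) : Set (ℤ × ℤ) :=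
  {e : ℤ × ℤ | e.2 ^ 2 ≠ e.1 ^ 3 ∧ |(e.2 : ℝ) ^ 2 - (e.1 : ℝ) ^ 3| ≤ C * |(e.1 : ℝ)| ^ (1 / 2 - δ)}

theorem count_x (C δ : ℝ) (h0 : 0 ≤ δ) (h1 : δ ≤ 1 / 2) (ε : ℝ) (hε : 0 < ε) : ∃ K : ℝ, ∀ X : ℝ, 1 ≤ X →
    {e | e ∈ Exc C δ ∧ |((e.1 : ℤ) : ℝ)| ≤ X}.Finite ∧
      ({e | e ∈ Exc C δ ∧ |((e.1 : ℤ) : ℝ)| ≤ X}.ncard : ℝ) ≤ K * X ^ (1 / 3 - δ / 6 + ε) := by
  obtain ⟨K, hK⟩ := Pool.Agent.Q138.AJ.Re734eda.result C ε hε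
  refine ⟨K, fun X hX => ?_⟩
  have e : {e | e ∈ Exc C δ ∧ |((e.1 : ℤ) : ℝ)| ≤ X} = {e : ℤ × ℤ | |(e.1 : ℝ)| ≤ X ∧ e.2 ^ 2 ≠ e.1 ^ 3 ∧
      |(e.2 : ℝ) ^ 2 - (e.1 : ℝ) ^ 3| ≤ C * |(e.1 : ℝ)| ^ (1 / 2 - δ)} := by
    ext e
    constructor
    · rintro ⟨⟨h2, h3⟩, h4⟩
      exact ⟨h4, h2, h3⟩
    · rintro ⟨h4, h2, h3⟩
      exact ⟨⟨h2, h3⟩, h4⟩
  rw [e]
  exact hK δ h0 h1 X hX

/-- the first coordinate of an exceptional pair is bounded in terms of the second -/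
theorem x_le (C δ : ℝ) (h0 : 0 ≤ δ) (h1 : δ ≤ 1 / 2) (e : ℤ × ℤ) (he : e ∈ Exc C δ) (X : ℝ) (hX : 1 ≤ X)
    (hy : |((e.2 : ℤ) : ℝ)| ≤ X) : |((e.1 : ℤ) : ℝ)| ≤ (2 + 2 * |C|) * X ^ ((2 : ℝ) / 3) := by
  obtain ⟨-, h3⟩ := he
  set t : ℝ := |((e.1 : ℤ) : ℝ)| with ht
  have hC := abs_nonneg C
  have hX0 : 0 < X := by linarith
  have hP1 : 1 ≤ X ^ ((2 : ℝ) / 3) := Real.one_le_rpow hX (by norm_num)
  by_contra hcon
  push Not at hcon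
  have ht1 : 1 < t := by
    have : (1 : ℝ) ≤ (2 + 2 * |C|) * X ^ ((2 : ℝ) / 3) := by nlinarith
    linarith
  have h4 : t ^ (1 / 2 - δ) ≤ t := by
    calc t ^ (1 / 2 - δ) ≤ t ^ (1 : ℝ) := Real.rpow_le_rpow_of_exponent_le ht1.le (by linarith)
      _ = t := Real.rpow_one t
  have h5 : C * t ^ (1 / 2 - δ) ≤ |C| * t :=
    (mul_le_mul_of_nonneg_right (le_abs_self C) (by positivity)).trans
      (mul_le_mul_of_nonneg_left h4 hC)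
  have h6 : t ^ 3 ≤ ((e.2 : ℤ) : ℝ) ^ 2 + |((e.2 : ℤ) : ℝ) ^ 2 - ((e.1 : ℤ) : ℝ) ^ 3| := by
    have h7 : t ^ 3 = |((e.1 : ℤ) : ℝ) ^ 3| := by rw [ht, abs_pow]
    rw [h7]
    have h8 := abs_sub_abs_le_abs_sub (((e.1 : ℤ) : ℝ) ^ 3) (((e.2 : ℤ) : ℝ) ^ 2)
    rw [abs_sub_comm, abs_of_nonneg (sq_nonneg ((e.2 : ℤ) : ℝ))] at h8
    linarith
  have h9 : ((e.2 : ℤ) : ℝ) ^ 2 ≤ X ^ 2 := by
    rw [← sq_abs]
    exact pow_le_pow_left₀ (abs_nonneg _) hy 2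
  have h10 : t ^ 3 ≤ X ^ 2 + |C| * t := by linarith
  set D : ℝ := 2 + 2 * |C| with hD
  have hD2 : 2 ≤ D := by rw [hD]; linarith
  have h11 : (D * X ^ ((2 : ℝ) / 3)) ^ 3 < t ^ 3 := pow_lt_pow_left₀ hcon (by positivity) (by norm_num)
  have h12 : (X ^ ((2 : ℝ) / 3)) ^ 3 = X ^ 2 := by
    rw [← Real.rpow_natCast, ← Real.rpow_mul hX0.le]
    norm_num
  rw [mul_pow, h12] at h11
  have h13 : D ≤ t := by nlinarith
  have h14 : D ^ 2 * t ≤ t ^ 3 := by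
    have : D ^ 2 ≤ t ^ 2 := pow_le_pow_left₀ (by linarith) h13 2
    nlinarith
  have h15 : 2 * |C| ≤ D ^ 2 := by nlinarith
  have h16 : 2 * (|C| * t) ≤ D ^ 2 * t := by nlinarith
  have h17 : 8 ≤ D ^ 3 := by
    calc (8 : ℝ) = 2 ^ 3 := by norm_num
      _ ≤ D ^ 3 := pow_le_pow_left₀ (by norm_num) hD2 3
  have hX2 : 0 < X ^ 2 := by positivity
  nlinarith

theorem count_y (C δ : ℝ) (h0 : 0 ≤ δ) (h1 : δ ≤ 1 / 2) (ε : ℝ) (hε : 0 < ε) : ∃ K : ℝ, ∀ X : ℝ, 1 ≤ X →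
    {e | e ∈ Exc C δ ∧ |((e.2 : ℤ) : ℝ)| ≤ X}.Finite ∧
      ({e | e ∈ Exc C δ ∧ |((e.2 : ℤ) : ℝ)| ≤ X}.ncard : ℝ) ≤ K * X ^ (2 / 9 - δ / 9 + ε) := by
  obtain ⟨K, hK⟩ := count_x C δ h0 h1 ε hε
  set D : ℝ := 2 + 2 * |C| with hD
  have hD2 : 2 ≤ D := by
    have := abs_nonneg C
    rw [hD]
    linarith
  refine ⟨|K| * D ^ (1 / 3 - δ / 6 + ε), fun X hX => ?_⟩
  have hX0 : 0 < X := by linarith
  have hP1 : 1 ≤ X ^ ((2 : ℝ) / 3) := Real.one_le_rpow hX (by norm_num)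
  have hY : 1 ≤ D * X ^ ((2 : ℝ) / 3) := by nlinarith
  obtain ⟨hfin, hcard⟩ := hK _ hY
  have hsub : {e | e ∈ Exc C δ ∧ |((e.2 : ℤ) : ℝ)| ≤ X} ⊆
      {e | e ∈ Exc C δ ∧ |((e.1 : ℤ) : ℝ)| ≤ D * X ^ ((2 : ℝ) / 3)} := by
    rintro e ⟨he, hy⟩
    exact ⟨he, x_le C δ h0 h1 e he X hX hy⟩
  refine ⟨hfin.subset hsub, ?_⟩
  have h2 : ({e | e ∈ Exc C δ ∧ |((e.2 : ℤ) : ℝ)| ≤ X}.ncard : ℝ) ≤
      ({e | e ∈ Exc C δ ∧ |((e.1 : ℤ) : ℝ)| ≤ D * X ^ ((2 : ℝ) / 3)}.ncard : ℝ) := by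
    exact_mod_cast Set.ncard_le_ncard hsub hfin
  have h3 : (D * X ^ ((2 : ℝ) / 3)) ^ (1 / 3 - δ / 6 + ε) ≤ D ^ (1 / 3 - δ / 6 + ε) * X ^ (2 / 9 - δ / 9 + ε) := by
    rw [Real.mul_rpow (by linarith) (by positivity), ← Real.rpow_mul hX0.le]
    apply mul_le_mul_of_nonneg_left _ (by positivity)
    apply Real.rpow_le_rpow_of_exponent_le hX
    linarith
  calc ({e | e ∈ Exc C δ ∧ |((e.2 : ℤ) : ℝ)| ≤ X}.ncard : ℝ)
      ≤ K * (D * X ^ ((2 : ℝ) / 3)) ^ (1 / 3 - δ / 6 + ε) := h2.trans hcard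
    _ ≤ |K| * (D ^ (1 / 3 - δ / 6 + ε) * X ^ (2 / 9 - δ / 9 + ε)) :=
        (mul_le_mul_of_nonneg_right (le_abs_self K) (by positivity)).trans
          (mul_le_mul_of_nonneg_left h3 (abs_nonneg K))
    _ = |K| * D ^ (1 / 3 - δ / 6 + ε) * X ^ (2 / 9 - δ / 9 + ε) := by ring

theorem Exc.mono {C C' δ : ℝ} (h : C ≤ C') : Exc C δ ⊆ Exc C' δ := fun _ he =>
  ⟨he.1, he.2.trans (mul_le_mul_of_nonneg_right h (Real.rpow_nonneg (abs_nonneg _) _))⟩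

/-- from the counts to the exceptional sets of target points -/
theorem main {Y : Type} [MetricSpace Y] [MeasurableSpace Y] [BorelSpace Y] (p : ℤ × ℤ → Y) (H : ℤ × ℤ → ℝ) (δ s τ : ℝ)
    (hs : 0 ≤ s) (hτ : 0 < τ) (h : ∀ C ε : ℝ, 0 < ε → ∃ K : ℝ, ∀ X : ℝ, 1 ≤ X → {e | e ∈ Exc C δ ∧ H e ≤ X}.Finite ∧
      (({e | e ∈ Exc C δ ∧ H e ≤ X}).ncard : ℝ) ≤ K * X ^ (s + ε)) :
    ∃ Z : Set Y, dimH Z ≤ ENNReal.ofReal (s / τ) ∧ ∀ z, z ∉ Z → ∀ C c : ℝ,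
      {e : ℤ × ℤ | e ∈ Exc C δ ∧ dist (p e) z ≤ c * (max 1 (H e)) ^ (-τ)}.Finite := by
  have h1 : ∀ m : ℕ, ∃ Z : Set Y, dimH Z ≤ ENNReal.ofReal (s / τ) ∧ ∀ z, z ∉ Z → ∀ c : ℝ,
      {e | e ∈ Exc m δ ∧ dist (p e) z ≤ c * (max 1 (H e)) ^ (-τ)}.Finite := by
    intro m
    refine fin_lim p (Exc m δ) (fun e => max 1 (H e)) (fun e => le_max_left _ _) s hs (fun ε hε => ?_) τ hτ
    obtain ⟨K, hK⟩ := h m ε hε
    refine ⟨K, fun T hT => ?_⟩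
    have e : {e | e ∈ Exc (m : ℝ) δ ∧ max 1 (H e) ≤ T} = {e | e ∈ Exc (m : ℝ) δ ∧ H e ≤ T} := by
      ext e
      exact ⟨fun h => ⟨h.1, (le_max_right _ _).trans h.2⟩, fun h => ⟨h.1, max_le hT h.2⟩⟩
    rw [e]
    exact hK T hT
  choose Z hZ hz using h1
  refine ⟨⋃ m, Z m, ?_, fun z hzZ C c => ?_⟩
  · rw [dimH_iUnion]
    exact iSup_le hZ
  · obtain ⟨m, hm⟩ := exists_nat_ge C
    refine (hz m z (fun hh => hzZ (Set.mem_iUnion.2 ⟨_, hh⟩)) c).subset ?_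
    rintro e ⟨h2, h3⟩
    exact ⟨Exc.mono hm h2, h3⟩

/-- the exponent -/
noncomputable def del (ε : ℝ) : ℝ := min (1 / 2) (ε / (4 + 2 * ε))

/-- the inequality of the question follows from the inequality for the difference -/
theorem log_lt {ε B : ℝ} (hε : 0 ≤ ε) {d x y : ℤ} (hd : d ≠ 0) (hx : x ≠ 0) (h : y ^ 2 = x ^ 3 + d)
    (hE : (x, y) ∉ Exc (Real.exp (|B|)) (del ε)) : Real.log |(x : ℝ)| < (2 + ε) * Real.log |(d : ℝ)| + B := by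
  have hx1 : (1 : ℝ) ≤ |(x : ℝ)| := by exact_mod_cast Int.one_le_abs hx
  have hx0 : (0 : ℝ) < |(x : ℝ)| := by linarith
  have hne : y ^ 2 ≠ x ^ 3 := by
    rw [h]
    intro h1
    apply hd
    linarith
  have h1 : Real.exp (|B|) * |(x : ℝ)| ^ (1 / 2 - del ε) < |(y : ℝ) ^ 2 - (x : ℝ) ^ 3| := by
    by_contra hcon
    push Not at hcon
    exact hE ⟨hne, hcon⟩
  have h2 : (y : ℝ) ^ 2 - (x : ℝ) ^ 3 = d := by
    have : (y : ℝ) ^ 2 = (x : ℝ) ^ 3 + d := by exact_mod_cast h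
    rw [this]
    ring
  rw [h2] at h1
  have h3 : 1 / (2 + ε) ≤ 1 / 2 - del ε := by
    have h4 : del ε ≤ ε / (4 + 2 * ε) := min_le_right _ _
    have h5 : 1 / (2 + ε) = 1 / 2 - ε / (4 + 2 * ε) := by
      field_simp
      ring
    linarith
  have h4 : Real.exp (|B|) * |(x : ℝ)| ^ (1 / (2 + ε)) < |(d : ℝ)| :=
    lt_of_le_of_lt (mul_le_mul_of_nonneg_left (Real.rpow_le_rpow_of_exponent_le hx1 h3) (Real.exp_pos _).le) h1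
  have h5 := Real.log_lt_log (by positivity) h4
  rw [Real.log_mul (Real.exp_pos _).ne' (by positivity), Real.log_exp, Real.log_rpow hx0] at h5
  have h6 : (2 + ε) * (|B| + 1 / (2 + ε) * Real.log |(x : ℝ)|) < (2 + ε) * Real.log |(d : ℝ)| :=
    mul_lt_mul_of_pos_left h5 (by linarith)
  have h7 : (2 + ε) * (|B| + 1 / (2 + ε) * Real.log |(x : ℝ)|) = (2 + ε) * |B| + Real.log |(x : ℝ)| := by
    field_simp
  have h8 : -B ≤ (2 + ε) * |B| := by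
    have := neg_abs_le B
    have h9 := abs_nonneg B
    nlinarith
  linarith

/-- **Theorem.** -/
theorem result (Y : Type) [MetricSpace Y] [MeasurableSpace Y] [BorelSpace Y] (p : ℤ × ℤ → Y) (ε τ : ℝ) (hε : 0 ≤ ε) (hτ : 0 < τ) :
    (∃ Z : Set Y, dimH Z ≤ ENNReal.ofReal ((1 / 3 - min (1 / 2) (ε / (4 + 2 * ε)) / 6) / τ) ∧ ∀ z, z ∉ Z → ∀ B c : ℝ,
      {e : ℤ × ℤ | e.1 ≠ 0 ∧ dist (p e) z ≤ c * |(e.1 : ℝ)| ^ (-τ) ∧ ∃ d : ℤ, d ≠ 0 ∧ e.2 ^ 2 = e.1 ^ 3 + d ∧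
        (2 + ε) * Real.log |(d : ℝ)| + B ≤ Real.log |(e.1 : ℝ)|}.Finite) ∧
    (∃ Z : Set Y, dimH Z ≤ ENNReal.ofReal ((2 / 9 - min (1 / 2) (ε / (4 + 2 * ε)) / 9) / τ) ∧ ∀ z, z ∉ Z → ∀ B c : ℝ,
      {e : ℤ × ℤ | e.1 ≠ 0 ∧ dist (p e) z ≤ c * (max 1 |(e.2 : ℝ)|) ^ (-τ) ∧ ∃ d : ℤ, d ≠ 0 ∧ e.2 ^ 2 = e.1 ^ 3 + d ∧
        (2 + ε) * Real.log |(d : ℝ)| + B ≤ Real.log |(e.1 : ℝ)|}.Finite) := by
  have h0 : 0 ≤ del ε := le_min (by norm_num) (by positivity)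
  have h1 : del ε ≤ 1 / 2 := min_le_left _ _
  refine ⟨?_, ?_⟩
  · obtain ⟨Z, hZ, hz⟩ := main p (fun e => |((e.1 : ℤ) : ℝ)|) (del ε) (1 / 3 - del ε / 6) τ (by linarith) hτ
      (fun C ε' hε' => count_x C _ h0 h1 ε' hε')
    refine ⟨Z, hZ, fun z hzZ B c => (hz z hzZ (Real.exp (|B|)) c).subset ?_⟩
    rintro ⟨x, y⟩ ⟨g1, g2, d, g3, g4, g5⟩
    have hx1 : (1 : ℝ) ≤ |(x : ℝ)| := by exact_mod_cast Int.one_le_abs g1
    refine ⟨?_, ?_⟩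
    · by_contra hcon
      have := log_lt hε g3 g1 g4 hcon
      simp only at g5
      linarith
    · simp only at g2 ⊢
      rw [max_eq_right hx1]
      exact g2
  · obtain ⟨Z, hZ, hz⟩ := main p (fun e => |((e.2 : ℤ) : ℝ)|) (del ε) (2 / 9 - del ε / 9) τ (by linarith) hτ
      (fun C ε' hε' => count_y C _ h0 h1 ε' hε')
    refine ⟨Z, hZ, fun z hzZ B c => (hz z hzZ (Real.exp (|B|)) c).subset ?_⟩
    rintro ⟨x, y⟩ ⟨g1, g2, d, g3, g4, g5⟩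
    refine ⟨?_, g2⟩
    by_contra hcon
    have := log_lt hε g3 g1 g4 hcon
    simp only at g5
    linarith

end Pool.Agent.Results.MP_9d7cd1_nt.PointsNearGivenPoints
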