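import Pool.Agent.Q138.PS.XL
import Pool.Agent.Results.MP_9d7cd1_nt.PointsNearGivenPoints

/-!
# Hall's conjecture for the integral points whose abscissa or ordinate is near a power of a real number

Let `ε ≥ 0`, `δ = min (1 / 2) (ε / (4 + 2 ε))`, `l < 1`. Outside a set of real numbers of Hausdorff dimension at most
`(1 / 3 - δ / 6) / (1 - l)` every `α > 1` has the following property: for all `B`, all positive algebraic numbers `b`, all integers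
`j` and all large `n`, ALL integral points `(x, y)`, `x ≠ 0`, of ALL the curves `y ^ 2 = x ^ 3 + d`, `d ≠ 0`, with
`| |x| - b n ^ j α ^ n| ≤ D (b n ^ j α ^ n) ^ l` satisfy `log |x| < (2 + ε) log |d| + B`. The same for the points with `|y|` near
`b n ^ j α ^ n`, off a set of dimension at most `(2 / 9 - δ / 9) / (1 - l)`.
-/

set_option autoImplicit false

namespace Pool.Agent.Results.MP_9d7cd1_nt.PointsNearPowers

open Filter Topology MeasureTheory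
open Pool.Agent.Q138.PS
open PointsNearGivenPoints (Exc count_x count_y log_lt del)

/-- `|t|` is within `D (b n ^ j α ^ n) ^ l` of `b n ^ j α ^ n` -/
def Near (α b : ℝ) (j : ℤ) (D l : ℝ) (n : ℕ) (t : ℤ) : Prop :=
  |(|(t : ℝ)| - b * (n : ℝ) ^ j * α ^ n)| ≤ D * (b * (n : ℝ) ^ j * α ^ n) ^ l

/-- Hall's inequality for all the integral points, `n` large, for which the coordinate `f (x, y)` is near `b n ^ j α ^ n` -/
def AllPoints (f : ℤ → ℤ → ℤ) (ε l α : ℝ) : Prop :=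
  ∀ B b : ℝ, 0 < b → IsAlgebraic ℚ b → ∀ (j : ℤ) (D : ℝ), ∀ᶠ n : ℕ in atTop, ∀ d x y : ℤ, d ≠ 0 → x ≠ 0 →
    y ^ 2 = x ^ 3 + d → Near α b j D l n (f x y) → Real.log |(x : ℝ)| < (2 + ε) * Real.log |(d : ℝ)| + B

theorem main (ε l : ℝ) (hε : 0 ≤ ε) (hl : l < 1) (f : ℤ → ℤ → ℤ) (s : ℝ) (hs : 0 ≤ s)
    (h : ∀ C e : ℝ, 0 < e → ∃ K : ℝ, ∀ X : ℝ, 1 ≤ X →
      {p : ℤ × ℤ | p ∈ Exc C (del ε) ∧ |((f p.1 p.2 : ℤ) : ℝ)| ≤ X}.Finite ∧
      (({p : ℤ × ℤ | p ∈ Exc C (del ε) ∧ |((f p.1 p.2 : ℤ) : ℝ)| ≤ X}).ncard : ℝ) ≤ K * X ^ (s + e)) :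
    ∃ E : Set ℝ, dimH E ≤ ENNReal.ofReal (s / (1 - l)) ∧ ∀ α : ℝ, 1 < α → α ∉ E → AllPoints f ε l α := by
  classical
  obtain ⟨E, hE, hg⟩ := pow_alg (ι := ℕ) (fun k => {m : ℕ | ∃ p : ℤ × ℤ, p ∈ Exc k (del ε) ∧ (f p.1 p.2).natAbs = m}) s l hs hl
    (fun k e he => by
      obtain ⟨K, hK⟩ := h k e he
      refine ⟨K, fun T hT => ?_⟩
      obtain ⟨h1, h2⟩ := hK T hT
      refine le_trans (Nat.cast_le.2 ?_) h2
      refine le_trans (Set.ncard_le_ncard (t := (fun p : ℤ × ℤ => (f p.1 p.2).natAbs) ''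
        {p : ℤ × ℤ | p ∈ Exc k (del ε) ∧ |((f p.1 p.2 : ℤ) : ℝ)| ≤ T}) ?_ (h1.image _)) (Set.ncard_image_le h1)
      rintro m ⟨⟨p, hp1, hp2⟩, hm⟩
      refine ⟨p, ⟨hp1, ?_⟩, hp2⟩
      have h3 : (((f p.1 p.2).natAbs : ℕ) : ℝ) = |((f p.1 p.2 : ℤ) : ℝ)| := by
        rw [Nat.cast_natAbs, Int.cast_abs]
      rw [← h3, hp2]
      exact hm)
  refine ⟨E, hE, fun α hα hαE B b hb hba j D => ?_⟩
  obtain ⟨k, hk⟩ := exists_nat_ge (Real.exp (|B|))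
  filter_upwards [hg α hα hαE k b hb hba j D] with n hn d x y hd hx hxy hnear
  refine log_lt hε hd hx hxy fun hExc => ?_
  refine hn (f x y).natAbs ?_ ⟨(x, y), Exc.mono hk hExc, rfl⟩
  unfold NearPow
  have h3 : (((f x y).natAbs : ℕ) : ℝ) = |((f x y : ℤ) : ℝ)| := by
    rw [Nat.cast_natAbs, Int.cast_abs]
  rw [h3]
  exact hnear

/-- **Theorem.** -/
theorem result (ε l : ℝ) (hε : 0 ≤ ε) (hl : l < 1) :
    (∃ E : Set ℝ, dimH E ≤ ENNReal.ofReal ((1 / 3 - del ε / 6) / (1 - l)) ∧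
      ∀ α : ℝ, 1 < α → α ∉ E → AllPoints (fun x _ => x) ε l α) ∧
    (∃ E : Set ℝ, dimH E ≤ ENNReal.ofReal ((2 / 9 - del ε / 9) / (1 - l)) ∧
      ∀ α : ℝ, 1 < α → α ∉ E → AllPoints (fun _ y => y) ε l α) := by
  have h1 : del ε ≤ 1 / 2 := min_le_left _ _
  have h0 : 0 ≤ del ε := le_min (by norm_num) (by positivity)
  exact ⟨main ε l hε hl _ _ (by linarith) fun C e he => count_x C _ h0 h1 e he,
    main ε l hε hl _ _ (by linarith) fun C e he => count_y C _ h0 h1 e he⟩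

end Pool.Agent.Results.MP_9d7cd1_nt.PointsNearPowers
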