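import Mathlib
import Pool.Agent.Q103.SD.Monic

/-!
# Hall's conjecture when `x` and `y` are composed of integers from a short interval

The bases are integers of the interval `[t, t + t ^ δ]`, or more generally numbers with small digits
(of either sign) in base `t` and first digit `1` or `-1`; `x` and `y` are products of powers of the
bases (with small coefficients), and all exponents are allowed.
-/

set_option autoImplicit false

namespace Pool.Agent.Results.MP_9d7cd1_nt.ProductsOfNearbyIntegers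

open Polynomial Finset Filter

/-- The bases `F_i(t)`, `i < n`, are the values at `t` of nonconstant polynomials with coefficients
(digits) of absolute value at most `H` and first digit (leading coefficient) `1` or `-1`, of total
degree at most `K`. -/
structure Bases (K : ℕ) (H : ℝ) {n : ℕ} (F : Fin n → ℤ[X]) : Prop where
  pos : ∀ i, 0 < (F i).natDegree
  deg : ∑ i, (F i).natDegree ≤ K
  digits : ∀ i j, |((F i).coeff j : ℝ)| ≤ H
  first : ∀ i, (F i).leadingCoeff = 1 ∨ (F i).leadingCoeff = -1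

theorem log_pow_small (κ : ℕ) : ∃ Y : ℝ, 1 ≤ Y ∧ ∀ x : ℝ, Y ≤ x →
    Real.log x ^ κ < Real.sqrt x := by
  have hr : (0 : ℝ) < 1 / (4 * ((κ : ℝ) + 1)) := by positivity
  have h1 := (isLittleO_log_rpow_atTop hr).bound (show (0 : ℝ) < 1 by norm_num)
  obtain ⟨Y, hY⟩ := eventually_atTop.mp h1
  refine ⟨max Y 2, (by norm_num : (1 : ℝ) ≤ 2).trans (le_max_right _ _), fun x hx => ?_⟩
  have hx2 : 2 ≤ x := (le_max_right _ _).trans hx
  have hx0 : 0 < x := by linarith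
  have h2 := hY x ((le_max_left _ _).trans hx)
  rw [one_mul, Real.norm_eq_abs, Real.norm_eq_abs, abs_of_nonneg (Real.log_nonneg (by linarith)),
    abs_of_nonneg (by positivity)] at h2
  calc Real.log x ^ κ ≤ (x ^ (1 / (4 * ((κ : ℝ) + 1)))) ^ κ :=
        pow_le_pow_left₀ (Real.log_nonneg (by linarith)) h2 κ
    _ = x ^ (κ / (4 * ((κ : ℝ) + 1))) := by
        rw [← Real.rpow_mul_natCast hx0.le]
        congr 1
        ring
    _ < x ^ (1 / 2 : ℝ) := by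
        apply Real.rpow_lt_rpow_of_exponent_lt (by linarith)
        rw [div_lt_div_iff₀ (by positivity) (by norm_num)]
        have : (0 : ℝ) ≤ κ := Nat.cast_nonneg _
        linarith
    _ = Real.sqrt x := (Real.sqrt_eq_rpow x).symm

theorem used_le {n : ℕ} (q : Fin n → ℤ) (b c : Fin n → ℕ) {x y ξ η : ℤ}
    (hx0 : x ≠ 0) (hy0 : y ≠ 0) (hx : x = ξ * ∏ i, q i ^ b i) (hy : y = η * ∏ i, q i ^ c i) :
    |((∏ i ∈ Pool.Agent.Q103.SD.used2 b c, q i : ℤ) : ℝ)| ≤ |(x : ℝ)| * |(y : ℝ)| := by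
  have h1 : |∏ i ∈ Pool.Agent.Q103.SD.used2 b c, q i| ≤ |x| * |y| := by
    rw [← abs_mul]
    have h2 : ∏ i ∈ Pool.Agent.Q103.SD.used2 b c, q i ∣ x * y := by
      have h3 : ∏ i ∈ Pool.Agent.Q103.SD.used2 b c, q i ∣
          (∏ i, q i ^ b i) * ∏ i, q i ^ c i := by
        rw [← Finset.prod_mul_distrib]
        refine dvd_trans ?_ (Finset.prod_dvd_prod_of_subset (Pool.Agent.Q103.SD.used2 b c)
          Finset.univ _ (Finset.subset_univ _))
        apply Finset.prod_dvd_prod_of_dvd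
        intro i hi
        rcases (Finset.mem_filter.mp hi).2 with h | h
        · exact (dvd_pow_self _ h).mul_right _
        · exact (dvd_pow_self _ h).mul_left _
      refine h3.trans ?_
      rw [hx, hy]
      exact mul_dvd_mul (Dvd.intro_left _ rfl) (Dvd.intro_left _ rfl)
    exact Int.le_of_dvd (abs_pos.mpr (mul_ne_zero hx0 hy0)) ((abs_dvd_abs _ _).mpr h2)
  exact_mod_cast h1

theorem result (K : ℕ) (ε : ℝ) (hε : 0 < ε) : ∃ δ : ℝ, 0 < δ ∧ ∃ κ t₀ : ℕ, ∀ t : ℕ, t₀ ≤ t →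
    ∀ (n : ℕ) (F : Fin n → ℤ[X]), Bases K ((t : ℝ) ^ δ) F →
    ∀ ξ η : ℤ, |(ξ : ℝ)| ≤ (t : ℝ) ^ δ → |(η : ℝ)| ≤ (t : ℝ) ^ δ →
    ∀ b c : Fin n → ℕ, (∃ i, b i ≠ 0 ∨ c i ≠ 0) →
    ∀ x y : ℤ, x ≠ 0 → y ≠ 0 → x = ξ * ∏ i, (F i).eval (t : ℤ) ^ b i →
      y = η * ∏ i, (F i).eval (t : ℤ) ^ c i →
    ∀ d : ℤ, d ≠ 0 → y ^ 2 = x ^ 3 + d →
      (max (|(x : ℝ)| ^ 3) (|(y : ℝ)| ^ 2)) ^ (1 / 6 : ℝ) * (t : ℝ) ^ (1 - ε) ≤
        |(d : ℝ)| * Real.exp (Real.log (Real.log (max (|(x : ℝ)| ^ 3) (|(y : ℝ)| ^ 2))) ^ κ) ∧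
      Real.log |(x : ℝ)| < (2 + ε) * Real.log |(d : ℝ)| ∧
      ((∀ i, (F i).coeff 0 = 1 ∨ (F i).coeff 0 = -1) → ∀ p v : ℕ, p.Prime → t = p ^ v →
        ∀ (m : ℕ) (w : ℤ), d = (p : ℤ) ^ m * w →
          (max (|(x : ℝ)| ^ 3) (|(y : ℝ)| ^ 2)) ^ (1 / 6 - ε) ≤ |(w : ℝ)|) := by
  obtain ⟨ε₁, hε₁⟩ : ∃ ε₁, ε₁ = min (ε / (12 + 6 * ε)) (1 / 8) := ⟨_, rfl⟩
  have hε₁0 : 0 < ε₁ := by rw [hε₁]; exact lt_min (by positivity) (by norm_num)
  have hε₁1 : ε₁ ≤ 1 / 8 := by rw [hε₁]; exact min_le_right _ _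
  have hε₁3 : ε₁ * (12 + 6 * ε) ≤ ε := by
    have h1 : ε₁ ≤ ε / (12 + 6 * ε) := by rw [hε₁]; exact min_le_left _ _
    rwa [le_div_iff₀ (by positivity)] at h1
  have hε₁2 : ε₁ ≤ ε / 4 := by nlinarith
  obtain ⟨δ₁, hδ₁, hδ₁', κ, t₁, ht₁, h⟩ := Pool.Agent.Q103.SD.monic K ε₁ hε₁0
  obtain ⟨δ₂, hδ₂, hδ₂', t₂, ht₂, h'⟩ := Pool.Agent.Q103.SD.sparse K ε₁ hε₁0
  obtain ⟨Y, hY1, hY⟩ := log_pow_small κ
  obtain ⟨δ, hδe⟩ : ∃ δ, δ = min δ₁ δ₂ / 3 := ⟨_, rfl⟩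
  have hδ0 : 0 < δ := by rw [hδe]; exact div_pos (lt_min hδ₁ hδ₂) (by norm_num)
  have hδδ₁ : 3 * δ ≤ δ₁ := by
    have := min_le_left δ₁ δ₂
    rw [hδe]
    linarith
  have hδδ₂ : 3 * δ ≤ δ₂ := by
    have := min_le_right δ₁ δ₂
    rw [hδe]
    linarith
  obtain ⟨Y', hY'⟩ : ∃ Y' : ℝ, Y' = max Y (1 / ε₁ ^ 2) := ⟨_, rfl⟩
  refine ⟨δ, hδ0, κ, max (max t₁ t₂) (2 * ⌈Real.exp Y'⌉₊ + 1), ?_⟩
  intro t ht n F hS ξ η hξt hηt b c hbc x y hx0 hy0 hx hy d hd heq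
  have htt₁ : t₁ ≤ t := ((le_max_left _ _).trans (le_max_left _ _)).trans ht
  have htt₂ : t₂ ≤ t := ((le_max_right _ _).trans (le_max_left _ _)).trans ht
  have htR : (64 : ℝ) ≤ t := by exact_mod_cast ht₁.trans htt₁
  have ht0 : (0 : ℝ) < t := by linarith
  have hξ0 : ξ ≠ 0 := by rintro rfl; rw [zero_mul] at hx; exact hx0 hx
  have hη0 : η ≠ 0 := by rintro rfl; rw [zero_mul] at hy; exact hy0 hy
  have hT : ∀ δ', 3 * δ ≤ δ' → (t : ℝ) ^ δ ≤ (t : ℝ) ^ δ' := fun δ' h3 =>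
    Real.rpow_le_rpow_of_exponent_le (by linarith) (by linarith)
  have hT3 : ∀ (δ' : ℝ) (z : ℤ) (k : ℕ), 3 * δ ≤ δ' → k ≤ 3 → |(z : ℝ)| ≤ (t : ℝ) ^ δ →
      |((z ^ k : ℤ) : ℝ)| ≤ (t : ℝ) ^ δ' := by
    intro δ' z k h3 hk hz
    push_cast
    rw [abs_pow]
    calc |(z : ℝ)| ^ k ≤ ((t : ℝ) ^ δ) ^ k := pow_le_pow_left₀ (abs_nonneg _) hz k
      _ = (t : ℝ) ^ (δ * k) := by rw [Real.rpow_mul_natCast ht0.le]
      _ ≤ _ := by
          apply Real.rpow_le_rpow_of_exponent_le (by linarith)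
          have : (k : ℝ) ≤ 3 := by exact_mod_cast hk
          nlinarith
  have hx3 : x ^ 3 = ξ ^ 3 * ∏ i, (F i).eval (t : ℤ) ^ (3 * b i) := by
    rw [hx, mul_pow, ← Finset.prod_pow]
    congr 1
    apply Finset.prod_congr rfl
    intro i _
    rw [← pow_mul, mul_comm]
  have hy2 : y ^ 2 = η ^ 2 * ∏ i, (F i).eval (t : ℤ) ^ (2 * c i) := by
    rw [hy, mul_pow, ← Finset.prod_pow]
    congr 1
    apply Finset.prod_congr rfl
    intro i _
    rw [← pow_mul, mul_comm]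
  have hused : Pool.Agent.Q103.SD.used2 (fun i => 3 * b i) (fun i => 2 * c i) =
      Pool.Agent.Q103.SD.used2 b c := by
    ext i
    simp only [Pool.Agent.Q103.SD.used2, Finset.mem_filter, Finset.mem_univ, true_and, Ne,
      Nat.mul_eq_zero, not_or]
    constructor
    · rintro (h | h)
      · exact Or.inl h.2
      · exact Or.inr h.2
    · rintro (h | h)
      · exact Or.inl ⟨by omega, h⟩
      · exact Or.inr ⟨by omega, h⟩
  have hU : (Pool.Agent.Q103.SD.used2 b c).Nonempty := by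
    obtain ⟨i, hi⟩ := hbc
    exact ⟨i, Finset.mem_filter.mpr ⟨Finset.mem_univ _, hi⟩⟩
  have hF0 : ∀ i, (F i).eval (t : ℤ) ≠ 0 := by
    intro i
    have hne : F i ≠ 0 := fun h => by
      have := hS.pos i
      rw [h, natDegree_zero] at this
      omega
    obtain ⟨ρ, hρ⟩ : ∃ ρ : ℝ, ρ = (t : ℝ) ^ (1 / 2 : ℝ) := ⟨_, rfl⟩
    have hρρ : ρ * ρ = t := by
      rw [hρ, ← Real.rpow_add ht0]
      norm_num
    have hρ8 : 8 ≤ ρ := by
      have hρ0 : 0 ≤ ρ := by rw [hρ]; positivity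
      nlinarith
    have hHρ : (t : ℝ) ^ δ ≤ ρ := by
      rw [hρ]
      exact Real.rpow_le_rpow_of_exponent_le (by linarith) (by linarith)
    have h3 := (Pool.Agent.Q103.SD.value_size (t := t) (by
      have : (2 : ℝ) ≤ t := by linarith
      exact_mod_cast this) (by positivity)
      (by nlinarith) (hS.digits i) hne).1
    intro h0
    rw [h0, Int.cast_zero, abs_zero] at h3
    have h4 : (0 : ℝ) < (t : ℝ) ^ (F i).natDegree := by positivity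
    linarith
  obtain ⟨Q, hQ⟩ : ∃ Q : ℝ,
      Q = |((∏ i ∈ Pool.Agent.Q103.SD.used2 b c, (F i).eval (t : ℤ) : ℤ) : ℝ)| := ⟨_, rfl⟩
  have hQxy : Q ≤ |(x : ℝ)| * |(y : ℝ)| := by
    rw [hQ]
    exact used_le _ b c hx0 hy0 hx hy
  obtain ⟨M, hM⟩ : ∃ M : ℝ, M = max (|(x : ℝ)| ^ 3) (|(y : ℝ)| ^ 2) := ⟨_, rfl⟩
  have hM2 : M = max |((η ^ 2 * ∏ i, (F i).eval (t : ℤ) ^ (2 * c i) : ℤ) : ℝ)|
      |((ξ ^ 3 * ∏ i, (F i).eval (t : ℤ) ^ (3 * b i) : ℤ) : ℝ)| := by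
    rw [← hx3, ← hy2, hM, max_comm]
    push_cast
    rw [abs_pow, abs_pow]
  rw [← hM]
  obtain ⟨hMt, hmain⟩ := h t htt₁ n F (ξ ^ 3) (η ^ 2)
    ⟨hS.pos, hS.deg, fun i j => (hS.digits i j).trans (hT _ hδδ₁), hS.first, pow_ne_zero _ hξ0,
      pow_ne_zero _ hη0, hT3 _ ξ 3 hδδ₁ le_rfl hξt, hT3 _ η 2 hδδ₁ (by norm_num) hηt⟩
    (fun i => 3 * b i) (fun i => 2 * c i) (by rw [hused]; exact hU) d hd
    (by rw [← hx3, ← hy2, heq]; ring) M hM2
  rw [hused, ← hQ] at hmain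
  have hx1 : (1 : ℝ) ≤ |(x : ℝ)| := by exact_mod_cast Int.one_le_abs hx0
  have hy1 : (1 : ℝ) ≤ |(y : ℝ)| := by exact_mod_cast Int.one_le_abs hy0
  have hM1 : 1 ≤ M := by linarith
  have hM0 : 0 < M := by linarith
  have hxM : |(x : ℝ)| ^ 3 ≤ M := by rw [hM]; exact le_max_left _ _
  have hyM : |(y : ℝ)| ^ 2 ≤ M := by rw [hM]; exact le_max_right _ _
  have hxr : |(x : ℝ)| ≤ M ^ (1 / 3 : ℝ) := by
    calc |(x : ℝ)| = (|(x : ℝ)| ^ 3) ^ (1 / 3 : ℝ) := by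
          rw [← Real.rpow_natCast, ← Real.rpow_mul (abs_nonneg _)]
          norm_num
      _ ≤ _ := Real.rpow_le_rpow (by positivity) hxM (by norm_num)
  have hyr : |(y : ℝ)| ≤ M ^ (1 / 2 : ℝ) := by
    calc |(y : ℝ)| = (|(y : ℝ)| ^ 2) ^ (1 / 2 : ℝ) := by
          rw [← Real.rpow_natCast, ← Real.rpow_mul (abs_nonneg _)]
          norm_num
      _ ≤ _ := Real.rpow_le_rpow (by positivity) hyM (by norm_num)
  have hQM : Q ≤ M ^ (5 / 6 : ℝ) := by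
    refine hQxy.trans ((mul_le_mul hxr hyr (by linarith) (by positivity)).trans (le_of_eq ?_))
    rw [← Real.rpow_add hM0]
    norm_num
  have hsplit : M = M ^ (1 / 6 : ℝ) * M ^ (5 / 6 : ℝ) := by
    rw [← Real.rpow_add hM0]
    norm_num
  have h56 : 0 < M ^ (5 / 6 : ℝ) := by positivity
  obtain ⟨X, hX⟩ : ∃ X : ℝ, X = Real.exp (Real.log (Real.log M) ^ κ) := ⟨_, rfl⟩
  rw [← hX] at hmain ⊢
  have hX0 : 0 < X := by rw [hX]; exact Real.exp_pos _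
  have hone : M ^ (1 / 6 : ℝ) * (t : ℝ) ^ (1 - ε₁) ≤ |(d : ℝ)| * X := by
    have h1 : (M ^ (1 / 6 : ℝ) * (t : ℝ) ^ (1 - ε₁)) * M ^ (5 / 6 : ℝ) ≤
        (|(d : ℝ)| * X) * M ^ (5 / 6 : ℝ) := by
      calc (M ^ (1 / 6 : ℝ) * (t : ℝ) ^ (1 - ε₁)) * M ^ (5 / 6 : ℝ) =
            (M ^ (1 / 6 : ℝ) * M ^ (5 / 6 : ℝ)) * (t : ℝ) ^ (1 - ε₁) := by ring
        _ = M * (t : ℝ) ^ (1 - ε₁) := by rw [← hsplit]
        _ ≤ |(d : ℝ)| * Q * X := hmain
        _ ≤ |(d : ℝ)| * M ^ (5 / 6 : ℝ) * X := by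
            apply mul_le_mul_of_nonneg_right _ hX0.le
            exact mul_le_mul_of_nonneg_left hQM (abs_nonneg _)
        _ = _ := by ring
    exact le_of_mul_le_mul_right h1 h56
  have hd1 : (1 : ℝ) ≤ |(d : ℝ)| := by exact_mod_cast Int.one_le_abs hd
  refine ⟨?_, ?_, ?_⟩
  · refine le_trans (mul_le_mul_of_nonneg_left ?_ (by positivity)) hone
    exact Real.rpow_le_rpow_of_exponent_le (by linarith) (by linarith)
  · -- Hall's inequality
    have hYM : Real.exp Y' ≤ M := by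
      have h1 : (2 * ⌈Real.exp Y'⌉₊ + 1 : ℕ) ≤ t := (le_max_right _ _).trans ht
      have h2 : ((2 * ⌈Real.exp Y'⌉₊ + 1 : ℕ) : ℝ) ≤ t := by exact_mod_cast h1
      push_cast at h2
      have h3 := Nat.le_ceil (Real.exp Y')
      linarith
    obtain ⟨l, hl⟩ : ∃ l, l = Real.log M := ⟨_, rfl⟩
    have hlY' : Y' ≤ l := by rw [hl]; exact (Real.le_log_iff_exp_le hM0).mpr hYM
    have hlY : Y ≤ l := by
      refine le_trans ?_ hlY'
      rw [hY']
      exact le_max_left _ _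
    have hlε : 1 / ε₁ ^ 2 ≤ l := by
      refine le_trans ?_ hlY'
      rw [hY']
      exact le_max_right _ _
    have hl0 : 0 < l := by linarith
    have hXl : Real.log X ≤ ε₁ * l := by
      rw [hX, Real.log_exp, ← hl]
      have h1 := hY l hlY
      have h2 : Real.sqrt l * Real.sqrt l = l := Real.mul_self_sqrt hl0.le
      have h3 : 1 / ε₁ ≤ Real.sqrt l := by
        rw [show (1 : ℝ) / ε₁ = Real.sqrt ((1 / ε₁) ^ 2) by
          rw [Real.sqrt_sq (by positivity)]]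
        apply Real.sqrt_le_sqrt
        rw [div_pow, one_pow]
        exact hlε
      have h4 : 1 ≤ ε₁ * Real.sqrt l := by
        rw [div_le_iff₀ hε₁0] at h3
        linarith
      have h5 : 0 ≤ Real.sqrt l := Real.sqrt_nonneg _
      nlinarith
    have h1 : Real.log (M ^ (1 / 6 : ℝ) * (t : ℝ) ^ (1 - ε₁)) ≤ Real.log (|(d : ℝ)| * X) :=
      Real.log_le_log (by positivity) hone
    rw [Real.log_mul (by positivity) (by positivity), Real.log_mul (by positivity) hX0.ne',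
      Real.log_rpow hM0, Real.log_rpow ht0, ← hl] at h1
    have hlt : 0 < Real.log t := Real.log_pos (by linarith)
    have h2 : 3 * Real.log |(x : ℝ)| ≤ l := by
      rw [hl]
      have h3 : Real.log (|(x : ℝ)| ^ 3) ≤ Real.log M := Real.log_le_log (by positivity) hxM
      rw [Real.log_pow] at h3
      exact_mod_cast h3
    have h3 : (1 / 6 - ε₁) * l < Real.log |(d : ℝ)| := by nlinarith
    have h4 : 0 ≤ Real.log |(d : ℝ)| := Real.log_nonneg hd1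
    have h5 : (1 / 2 - 3 * ε₁) * Real.log |(x : ℝ)| < Real.log |(d : ℝ)| := by nlinarith
    have h6 : (0 : ℝ) ≤ Real.log |(x : ℝ)| := Real.log_nonneg hx1
    have h7 : 1 ≤ (2 + ε) * (1 / 2 - 3 * ε₁) := by nlinarith
    calc Real.log |(x : ℝ)| = 1 * Real.log |(x : ℝ)| := (one_mul _).symm
      _ ≤ ((2 + ε) * (1 / 2 - 3 * ε₁)) * Real.log |(x : ℝ)| := mul_le_mul_of_nonneg_right h7 h6
      _ = (2 + ε) * ((1 / 2 - 3 * ε₁) * Real.log |(x : ℝ)|) := by ring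
      _ < _ := mul_lt_mul_of_pos_left h5 (by linarith)
  · intro hlast p v hp htp m w hdw
    have hw : w ≠ 0 := by
      rintro rfl
      rw [mul_zero] at hdw
      exact hd hdw
    have hmain2 := h' p v t hp htp htt₂ n F (ξ ^ 3) (η ^ 2)
      ⟨hS.pos, hS.deg, fun i j => (hS.digits i j).trans (hT _ hδδ₂), hlast, hS.first,
        pow_ne_zero _ hξ0, pow_ne_zero _ hη0, hT3 _ ξ 3 hδδ₂ le_rfl hξt,
        hT3 _ η 2 hδδ₂ (by norm_num) hηt⟩
      (fun i => 3 * b i) (fun i => 2 * c i) (by rw [hused]; exact hU) m w hw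
      (by rw [← hx3, ← hy2, ← hdw, heq]; ring)
    rw [hused, ← hQ, ← hM2] at hmain2
    have h1 : M ^ (1 - ε₁) ≤ |(w : ℝ)| * M ^ (5 / 6 : ℝ) :=
      hmain2.trans (mul_le_mul_of_nonneg_left hQM (abs_nonneg _))
    have h2 : M ^ (1 / 6 - ε₁) ≤ |(w : ℝ)| := by
      have e1 : M ^ (1 / 6 - ε₁) = M ^ (1 - ε₁) / M ^ (5 / 6 : ℝ) := by
        rw [← Real.rpow_sub hM0]
        congr 1
        ring
      rw [e1, div_le_iff₀ h56]
      exact h1
    refine le_trans (Real.rpow_le_rpow_of_exponent_le hM1 (by linarith)) h2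

end Pool.Agent.Results.MP_9d7cd1_nt.ProductsOfNearbyIntegers
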